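import Pool.Agent.Y996.QH.Stm

/-!
Project QH: assembly of the lower bound of the Dirichlet energy in the half-plane.
-/

set_option autoImplicit false

namespace Pool.Agent.Y41.QH

open MeasureTheory Set
open Pool.Agent.Y996.QH
open Pool.Agent.Y996.RD (Size pc comb)

open scoped ENNReal

/-- the part of the argument around one of the two sets -/
theorem side {C : ℝ} (hC : 0 < C) {u : ℂ → ℝ}
    (h1 : ∀ (a σ δ κ : ℝ), 0 < σ → σ ≤ δ →
      (∀ r ∈ Icc (σ / 2) σ, ∃ x : ℂ, 0 ≤ x.im ∧ dist x (a : ℂ) = r ∧ u x = κ) →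
      (cmH u a δ - κ) ^ 2 ≤
        (C + Real.log (δ / σ) / Real.pi) * (enH u).real {z | dist z (a : ℂ) ≤ δ})
    {ε : ℝ} {K : Set ℂ} {z : ℂ} {d ρ κ : ℝ} (hK : GoodH ε K z d ρ) (hκ : ∀ x ∈ K, u x = κ) :
    ∃ (c : ℂ) (J : ℝ), 0 ≤ c.im ∧ dist z c ≤ d / 64 ∧ Handle u c (d / 512) J ∧
      (J - κ) ^ 2 ≤ (C + Real.log (d / ρ) / Real.pi) *
        (enH u).real {x | dist x c ≤ d / 512} := by
  have hpi := Real.pi_pos
  have hρ := hK.size.pos
  have hρd := hK.size.le
  have hd : 0 < d := hρ.trans_le hρd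
  have hlog : 0 ≤ Real.log (d / ρ) := Real.log_nonneg (by rw [le_div_iff₀ hρ]; linarith)
  rcases le_or_gt (d / 64) ρ with h | h
  · refine ⟨z, κ, hK.sub z hK.size.mem, ?_, Or.inr ?_, ?_⟩
    · rw [dist_self]; positivity
    · intro r hr
      obtain ⟨x, hx, hxr⟩ := hK.hits r (le_trans (by positivity) hr.1) (by linarith [hr.2])
      exact ⟨x, hK.sub x hx, hxr, hκ x hx⟩
    · rw [sub_self]
      have : 0 ≤ (C + Real.log (d / ρ) / Real.pi) *
        (enH u).real {x | dist x z ≤ d / 512} :=
        mul_nonneg (add_nonneg hC.le (div_nonneg hlog hpi.le)) measureReal_nonneg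
      simpa using this
  · rcases hK.base with hb | ⟨a, ha, hhits⟩
    · exfalso
      rw [hb] at h
      linarith
    · have hσ0 : 0 < min (ρ / 4) (d / 512) := lt_min (by positivity) (by positivity)
      refine ⟨(a : ℂ), cmH u a (d / 512), by simp, by linarith, Or.inl ⟨a, rfl, rfl⟩, ?_⟩
      have h2 := h1 a (min (ρ / 4) (d / 512)) (d / 512) κ hσ0 (min_le_right _ _) (by
        intro r hr
        obtain ⟨x, hx, hxr⟩ := hhits r (le_trans (by positivity) hr.1)
          (hr.2.trans (min_le_left _ _))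
        exact ⟨x, hK.sub x hx, hxr, hκ x hx⟩)
      refine h2.trans ?_
      apply mul_le_mul_of_nonneg_right _ measureReal_nonneg
      have h3 : Real.log (d / 512 / min (ρ / 4) (d / 512)) ≤ Real.log (d / ρ) := by
        apply Real.log_le_log (by positivity)
        rw [div_le_div_iff₀ hσ0 hρ]
        rcases le_total (ρ / 4) (d / 512) with h4 | h4
        · rw [min_eq_left h4]
          nlinarith
        · rw [min_eq_right h4]
          nlinarith
      have h4 : Real.log (d / 512 / min (ρ / 4) (d / 512)) / Real.pi ≤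
          Real.log (d / ρ) / Real.pi := div_le_div_of_nonneg_right h3 hpi.le
      linarith

theorem en3 : S_EN1 → S_EN2 → S_EN := by
  rintro ⟨C1, hC1, h1⟩ ⟨C2, hC2, h2⟩
  refine ⟨2 * C1 + C2, by positivity, ?_⟩
  intro ε K L z w ρ σ u hK hL hu hfin hu0 hu1
  have hpi := Real.pi_pos
  obtain ⟨d, hd⟩ : ∃ d, d = dist z w := ⟨_, rfl⟩
  rw [← hd] at hK hL ⊢
  have hen : enH u univ = energyH u := by
    unfold enH energyH
    rw [withDensity_apply _ MeasurableSet.univ, Measure.restrict_univ]
  have hfin' : enH u univ ≠ ⊤ := by rw [hen]; exact hfin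
  have : IsFiniteMeasure (enH u) := ⟨lt_top_iff_ne_top.mpr hfin'⟩
  have hd0 : 0 < d := hK.size.pos.trans_le hK.size.le
  obtain ⟨c1, J1, hc1, hz1, hH1, e1⟩ := side hC1 (fun a σ δ κ => h1 u a σ δ κ hu hfin')
    hK hu0
  obtain ⟨c2, J2, hc2, hz2, hH2, e2⟩ := side hC1 (fun a σ δ κ => h1 u a σ δ κ hu hfin')
    hL hu1
  have t1 : dist c1 c2 ≤ d + d / 32 := by
    have a1 := dist_triangle c1 z c2
    have a2 := dist_triangle z w c2
    rw [dist_comm c1 z] at a1
    linarith
  have t2 : d - d / 32 ≤ dist c1 c2 := by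
    have a1 := dist_triangle z c1 w
    have a2 := dist_triangle c1 c2 w
    rw [dist_comm c2 w] at a2
    linarith
  have e3 := h2 u c1 c2 (d / 512) J1 J2 hu hfin' (by positivity) hc1 hc2 (by linarith)
    (by linarith) hH1 hH2
  have l1 : 0 ≤ Real.log (d / ρ) / Real.pi := div_nonneg
    (Real.log_nonneg (by rw [le_div_iff₀ hK.size.pos]; linarith [hK.size.le])) hpi.le
  have l2 : 0 ≤ Real.log (d / σ) / Real.pi := div_nonneg
    (Real.log_nonneg (by rw [le_div_iff₀ hL.size.pos]; linarith [hL.size.le])) hpi.le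
  have n : ∀ s : Set ℂ, 0 ≤ (enH u).real s := fun s => measureReal_nonneg
  have e1' : (0 - J1) ^ 2 ≤ (C1 + Real.log (d / ρ) / Real.pi) *
      (enH u).real {x | dist x c1 ≤ d / 512} := by
    rw [show (0 - J1) ^ 2 = (J1 - 0) ^ 2 by ring]; exact e1
  have c3 := comb (add_nonneg hC1.le l1) hC2.le (n _) (n _) e1' e3
  have c4 := comb (add_nonneg (add_nonneg hC1.le l1) hC2.le) (add_nonneg hC1.le l2)
    (add_nonneg (n _) (n _)) (n _) c3 e2
  rw [show (0 - J1 + (J1 - J2) + (J2 - 1)) ^ 2 = 1 by ring] at c4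
  have dm : Measurable (fun x : ℂ => dist x c1) := (continuous_id.dist continuous_const).measurable
  have dm2 : Measurable (fun x : ℂ => dist x c2) :=
    (continuous_id.dist continuous_const).measurable
  have u3 : (enH u).real {x | dist x c1 ≤ d / 512} +
      (enH u).real {x | d / 512 < dist x c1 ∧ d / 512 < dist x c2} +
      (enH u).real {x | dist x c2 ≤ d / 512} ≤ (enH u).real univ := by
    have hm2 : MeasurableSet {x : ℂ | dist x c2 ≤ d / 512} := measurableSet_le dm2 measurable_const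
    have hm3 : MeasurableSet {x : ℂ | d / 512 < dist x c1 ∧ d / 512 < dist x c2} :=
      (measurableSet_lt measurable_const dm).inter (measurableSet_lt measurable_const dm2)
    rw [← measureReal_union _ hm3, ← measureReal_union _ hm2]
    · exact measureReal_mono (subset_univ _)
    · rw [Set.disjoint_left]
      rintro x (h | h) h'
      · have a1 : dist x c1 ≤ d / 512 := h
        have a2 : dist x c2 ≤ d / 512 := h'
        have a3 := dist_triangle c1 x c2
        rw [dist_comm c1 x] at a3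
        linarith
      · exact absurd h' (not_le.mpr h.2)
    · rw [Set.disjoint_left]
      rintro x h h'
      exact absurd h (not_le.mpr h'.1)
  have hE : (enH u).real univ = (energyH u).toReal := by
    rw [measureReal_def, hen]
  rw [hE] at u3
  refine c4.trans ?_
  have hcoef : C1 + Real.log (d / ρ) / Real.pi + C2 + (C1 + Real.log (d / σ) / Real.pi) =
      2 * C1 + C2 + (Real.log (d / ρ) + Real.log (d / σ)) / Real.pi := by ring
  rw [hcoef]
  apply mul_le_mul_of_nonneg_left u3
  rw [← hcoef]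
  positivity

end Pool.Agent.Y41.QH
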